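import Pool.Agent.H62.PR.Gf2

/-!
# Ranks of the quadratic twists of almost all curves in positive-density families

Let `S` be a set of `n` primes `Q = 1` modulo `8`. We call an elliptic curve `E : y ^ 2 = x ^ 3 + a x + b`
basic if `a > 0`, `a = 3` modulo `4`, `a = 2` modulo `3`, `b` is odd and prime to `3`,
`4 a ^ 3 + 27 b ^ 2` is squarefree, and for all `Q ∈ S` we have `Q ∣ b` and `- a` is not a square modulo
`Q`. There are `2 ^ (n + 1)` quadratic twists `E^d : y ^ 2 = x ^ 3 + a d ^ 2 x + b d ^ 3` by the (positive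
and negative) divisors `d` of `∏ Q ∈ S, Q`; they are all squarefree.

**Theorem.** For every `ε > 0` there is an `n₀` such that for ALL sets `S` of `n ≥ n₀` primes `1`
modulo `8`: the basic curves are a positive proportion of all elliptic curves over `ℚ`, ordered by
height, and all but a proportion of at most `ε` of them, ordered by height, have the following
properties:

* for all sets `𝒟` of natural numbers, the proportion of the twists with `dim Sel₂(E^d / ℚ) ∈ 𝒟` among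
  the `2 ^ (n + 1)` twists differs from `∑ r ∈ 𝒟, C_{2,r}` by at most `ε`, where `C_{2,r}` are the numbers
  of Heath-Brown, Swinnerton-Dyer, Kane and Poonen-Rains;
* exactly half of the twists have even, and exactly half have odd `dim Sel₂(E^d / ℚ)`;
* at least `20.97 % - ε` of the twists have rank zero, and at least `62.9 % - ε` have rank at most one.

Compare Goldfeld's conjecture: for a fixed curve the ranks should be `0` and `1`, each for half of
the twists. The theorem is for almost all curves of a family which depends on `S`, and for the twists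
by the divisors of a fixed number.

Method. For a basic curve `E` without exceptional classes there is a maximal isotropic subspace `Λ` of
`∏ Q ∈ S, H¹(ℚ_Q, E[2])` such that `Sel₂(E^d / ℚ) = Λ ∩ L_J` for `d = ∏ Q ∈ J, Q`, `J ⊆ S`, with
coordinate subspaces `L_J`. Geometry of numbers, with constants which do not depend on `S`, shows that
for most curves and most `J` the elements of `Λ ∩ L_J` vanish at about half of the places in `S`; so
the dimension is almost the Markov chain of Klagsbrun, Mazur and Rubin. The twist by `- 1` changes the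
parity since the local images at `2` are different.

This is joint work of the team: the parts were proved by helper6, helper25, helper29, helper35,
helper62, helper66, helper70, helper72, helper75, helper88, helper89 and helper93 (directories
`Pool/Agent/H<nn>/PR`). It uses library modules of `MP_78d38b_nt` (helper922 and others: `N922`, `N874`,
`N615`, `N426`, `N7`, `N456`, `N803`, `N650`, ...), and the Mordell-Weil theorem (`N273/PQ/FinM`,
`R_seed8/H437R2/Man`).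
-/

set_option autoImplicit false
set_option linter.all false

namespace Pool.Agent.Results.MP_03e5d0_nt.TwistsOfAlmostAll

open Filter Pool.Agent.TH115.GD
open scoped Classical

/-- The curve `y ^ 2 = x ^ 3 + A x + B` over `ℚ`. -/
def curve (q : ℤ × ℤ) : WeierstrassCurve ℚ := ⟨0, 0, 0, (q.1 : ℚ), (q.2 : ℚ)⟩

/-- The quadratic twist of `y ^ 2 = x ^ 3 + a x + b` by `d`. -/
def twist (p : ℤ × ℤ) (d : ℤ) : ℤ × ℤ := (p.1 * d ^ 2, p.2 * d ^ 3)

/-- All elliptic curves `y ^ 2 = x ^ 3 + A x + B` over `ℚ` with integers `A`, `B` of height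
`max (|A| ^ 3, |B| ^ 2)` at most `x`. -/
def Curves (x : ℝ) : Set (ℤ × ℤ) :=
  {q | 4 * q.1 ^ 3 + 27 * q.2 ^ 2 ≠ 0 ∧ |(q.1 : ℝ)| ^ 3 ≤ x ∧ (q.2 : ℝ) ^ 2 ≤ x}

/-- The 2-Selmer group of `W` over `ℚ` has dimension `d`, i.e. it has `2 ^ d` elements. The elements
of `Pool.Agent.H62.PR.Sel2 W` (file `H62/PR/Sel0.lean`) are the classes of continuous cocycles of the
absolute Galois group of `ℚ` with values in the points of order two of `W`, which are coboundaries of
points of `W` over the completions of `ℚ` at all the maximal ideals and over `ℝ`, modulo coboundaries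
of points of order two. -/
def SelmerDim (W : WeierstrassCurve ℚ) (d : ℕ) : Prop :=
  Nat.card (Pool.Agent.H62.PR.Sel2 W) = 2 ^ d

/-- The rank of the group of points over `K`. -/
noncomputable def rank {K : Type} [Field K] (W : WeierstrassCurve K) : ℕ :=
  Module.finrank ℤ (Pt W K)

/-- `C_{2,d} = ∏_{j ≥ 0} (1 + 2 ^ (- j)) ^ (- 1) ∏_{1 ≤ i ≤ d} 2 / (2 ^ i - 1)`. The factors of the
infinite product are less than one, so it is the infimum of the finite products. -/
noncomputable def C2 (d : ℕ) : ℝ :=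
  (⨅ N : ℕ, ∏ j ∈ Finset.range N, (1 + (1 / 2 : ℝ) ^ j)⁻¹) *
    ∏ i ∈ Finset.range d, (2 : ℝ) / (2 ^ (i + 1) - 1)

/-- The basic curves `y ^ 2 = x ^ 3 + a x + b`. -/
structure Basic (S : Finset ℤ) (p : ℤ × ℤ) : Prop where
  pos : 0 < p.1
  a4 : p.1 % 4 = 3
  a3 : p.1 % 3 = 2
  b2 : p.2 % 2 = 1
  b3 : p.2 % 3 ≠ 0
  sq : Squarefree (4 * p.1 ^ 3 + 27 * p.2 ^ 2)
  div : ∀ Q ∈ S, Q ∣ p.2
  nonsq : ∀ Q ∈ S, ∀ z : ℤ, ¬ Q ∣ z ^ 2 + p.1

/-- The divisors `d` of `∏ Q ∈ S, Q` with the property `R`. -/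
def Div (S : Finset ℤ) (R : ℤ → Prop) : Set ℤ := {d | d ∣ ∏ Q ∈ S, Q ∧ R d}

/-- The properties of the twists. -/
structure Good (S : Finset ℤ) (ε : ℝ) (p : ℤ × ℤ) : Prop where
  number : (Div S fun _ => True).ncard = 2 ^ (S.card + 1)
  distribution : ∀ 𝒟 : Set ℕ,
    |((Div S fun d => ∃ r ∈ 𝒟, SelmerDim (curve (twist p d)) r).ncard : ℝ) -
      (∑' r : 𝒟, C2 r) * 2 ^ (S.card + 1)| ≤ ε * 2 ^ (S.card + 1)
  even : (Div S fun d => ∃ r, Even r ∧ SelmerDim (curve (twist p d)) r).ncard = 2 ^ S.card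
  odd : (Div S fun d => ∃ r, Odd r ∧ SelmerDim (curve (twist p d)) r).ncard = 2 ^ S.card
  zero : (0.2097 - ε) * 2 ^ (S.card + 1) ≤
    ((Div S fun d => Finite (Pt (curve (twist p d)) ℚ)).ncard : ℝ)
  one : (0.629 - ε) * 2 ^ (S.card + 1) ≤
    ((Div S fun d => rank (curve (twist p d)) ≤ 1).ncard : ℝ)

theorem basic_iff (S : Finset ℤ) (p : ℤ × ℤ) : Basic S p ↔ Pool.Agent.H62.PR.Cu S p :=
  ⟨fun h => ⟨h.pos, h.a4, h.a3, h.b2, h.b3, h.sq, fun Q hQ => ⟨h.div Q hQ, h.nonsq Q hQ⟩⟩,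
    fun h => ⟨h.pos, h.a4, h.a3, h.b2, h.b3, h.sq, fun Q hQ => (h.s Q hQ).1,
      fun Q hQ => (h.s Q hQ).2⟩⟩

theorem twist_disc {S : Finset ℤ} {p : ℤ × ℤ} (hS : ∀ Q ∈ S, 0 < Q) (hp : Basic S p) {d : ℤ}
    (hd : d ∣ ∏ Q ∈ S, Q) :
    4 * (((p.1 * d ^ 2 : ℤ)) : ℚ) ^ 3 + 27 * (((p.2 * d ^ 3 : ℤ)) : ℚ) ^ 2 ≠ 0 := by
  have hP : 0 < ∏ Q ∈ S, Q := Finset.prod_pos hS
  have hd0 : d ≠ 0 := by
    rintro rfl
    exact hP.ne' (zero_dvd_iff.1 hd)
  have e : 4 * (((p.1 * d ^ 2 : ℤ)) : ℚ) ^ 3 + 27 * (((p.2 * d ^ 3 : ℤ)) : ℚ) ^ 2 =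
      ((d ^ 6 * (4 * p.1 ^ 3 + 27 * p.2 ^ 2) : ℤ) : ℚ) := by
    push_cast
    ring
  rw [e, Int.cast_ne_zero]
  exact mul_ne_zero (pow_ne_zero 6 hd0) hp.sq.ne_zero

theorem good_of {S : Finset ℤ} (hS : ∀ Q ∈ S, 0 < Q ∧ Prime Q ∧ Q % 8 = 1) {ε : ℝ} {p : ℤ × ℤ}
    (hp : Basic S p) (h : Pool.Agent.H62.PR.TwG S ε p) : Good S ε p := by
  have hPS : Pool.Agent.H62.PR.PS S := fun Q hQ => ⟨⟨(hS Q hQ).1, (hS Q hQ).2.1⟩, (hS Q hQ).2.2⟩
  obtain ⟨h1, h2, h3⟩ := h
  have hfin : ∀ R : ℤ → Prop, (Div S R).Finite := fun R =>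
    (Pool.Agent.H62.PR.ncard_divs hPS R).1
  have hC0 : (0.2097 : ℝ) ≤ C2 0 := Pool.Agent.H62.PR.cd0_ge
  have hC1 : C2 1 = 2 * C2 0 := by
    have := Pool.Agent.H62.PR.cd_succ 0
    have e : C2 1 = C2 0 * (2 / (2 ^ (0 + 1) - 1)) := this
    rw [e]
    norm_num
    ring
  refine ⟨?_, h1, h2, h3, ?_, ?_⟩
  · have h4 := (Pool.Agent.H62.PR.ncard_divs hPS fun _ => True).2
    refine h4.trans ?_
    simp [pow_succ]
    ring
  · have h4 := (abs_le.1 (h1 {0})).1
    have e : ∑' r : ({0} : Set ℕ), Pool.Agent.H62.PR.Cd r = C2 0 := by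
      simp [C2, Pool.Agent.H62.PR.Cd]
    rw [e] at h4
    have h5 : {d : ℤ | d ∣ ∏ Q ∈ S, Q ∧ ∃ r ∈ ({0} : Set ℕ),
        Pool.Agent.H62.PR.selN p.1 p.2 d = 2 ^ r} ⊆
        Div S fun d => Finite (Pt (curve (twist p d)) ℚ) := by
      rintro d ⟨hd, r, hr, hr'⟩
      rw [Set.mem_singleton_iff] at hr
      subst hr
      refine ⟨hd, ?_⟩
      have hdisc := twist_disc (fun Q hQ => (hS Q hQ).1) hp hd
      have h6 := Pool.Agent.H62.PR.rk_le hdisc hr'
      exact Pool.Agent.H62.PR.fin_of_rk hdisc (Nat.le_zero.1 h6)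
    have h6 : (({d : ℤ | d ∣ ∏ Q ∈ S, Q ∧ ∃ r ∈ ({0} : Set ℕ),
        Pool.Agent.H62.PR.selN p.1 p.2 d = 2 ^ r}).ncard : ℝ) ≤
        ((Div S fun d => Finite (Pt (curve (twist p d)) ℚ)).ncard : ℝ) := by
      exact_mod_cast Set.ncard_le_ncard h5 (hfin _)
    have h7 : (0.2097 : ℝ) * 2 ^ (S.card + 1) ≤ C2 0 * 2 ^ (S.card + 1) :=
      mul_le_mul_of_nonneg_right hC0 (by positivity)
    linarith
  · have h4 := (abs_le.1 (h1 {0, 1})).1
    have e : ∑' r : ({0, 1} : Set ℕ), Pool.Agent.H62.PR.Cd r = C2 0 + C2 1 := by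
      have h5 : ({0, 1} : Set ℕ) = (({0, 1} : Finset ℕ) : Set ℕ) := by simp
      rw [h5, Finset.tsum_subtype' ({0, 1} : Finset ℕ) Pool.Agent.H62.PR.Cd,
        Finset.sum_pair (by norm_num)]
      rfl
    rw [e] at h4
    have h5 : {d : ℤ | d ∣ ∏ Q ∈ S, Q ∧ ∃ r ∈ ({0, 1} : Set ℕ),
        Pool.Agent.H62.PR.selN p.1 p.2 d = 2 ^ r} ⊆
        Div S fun d => rank (curve (twist p d)) ≤ 1 := by
      rintro d ⟨hd, r, hr, hr'⟩
      refine ⟨hd, ?_⟩
      have hdisc := twist_disc (fun Q hQ => (hS Q hQ).1) hp hd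
      have h6 := Pool.Agent.H62.PR.rk_le hdisc hr'
      refine le_trans h6 ?_
      rcases hr with rfl | hr
      · exact Nat.zero_le _
      · rw [Set.mem_singleton_iff] at hr
        exact hr.le
    have h6 : (({d : ℤ | d ∣ ∏ Q ∈ S, Q ∧ ∃ r ∈ ({0, 1} : Set ℕ),
        Pool.Agent.H62.PR.selN p.1 p.2 d = 2 ^ r}).ncard : ℝ) ≤
        ((Div S fun d => rank (curve (twist p d)) ≤ 1).ncard : ℝ) := by
      exact_mod_cast Set.ncard_le_ncard h5 (hfin _)
    have h7 : (0.629 : ℝ) * 2 ^ (S.card + 1) ≤ (C2 0 + C2 1) * 2 ^ (S.card + 1) :=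
      mul_le_mul_of_nonneg_right (by rw [hC1]; linarith) (by positivity)
    linarith

/-- **The ranks of the twists of almost all curves.** For every `ε > 0` there is an `n₀` such that for
all sets `S` of at least `n₀` primes `1` modulo `8` the basic curves are a positive proportion of all
elliptic curves over `ℚ`, ordered by height, and for all large heights all but a proportion of at most
`ε` of the basic curves are good: among their twists by the divisors of `∏ Q ∈ S, Q` the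
distribution of the 2-Selmer rank differs by at most `ε` from that of Poonen and Rains, exactly half
of the 2-Selmer ranks are even and exactly half are odd, at least `20.97 % - ε` of the twists have
only finitely many rational points, and at least `62.9 % - ε` have rank at most one. -/
theorem result : ∀ ε : ℝ, 0 < ε → ∃ n₀ : ℕ, ∀ S : Finset ℤ,
    (∀ Q ∈ S, 0 < Q ∧ Prime Q ∧ Q % 8 = 1) → n₀ ≤ S.card →
    ∃ c : ℝ, 0 < c ∧ ∀ᶠ x : ℝ in atTop, (Curves x).Finite ∧ 0 < (Curves x).ncard ∧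
      c * ((Curves x).ncard : ℝ) ≤ (({p ∈ Curves x | Basic S p}).ncard : ℝ) ∧
      (1 - ε) * (({p ∈ Curves x | Basic S p}).ncard : ℝ) ≤
        (({p ∈ Curves x | Basic S p ∧ Good S ε p}).ncard : ℝ) := by
  intro ε hε
  obtain ⟨n₀, h⟩ := Pool.Agent.H62.PR.main3 ε hε
  refine ⟨n₀, fun S hS hcard => ?_⟩
  obtain ⟨c, hc, x₀, hx₀⟩ := h S (fun Q hQ => ⟨⟨(hS Q hQ).1, (hS Q hQ).2.1⟩, (hS Q hQ).2.2⟩) hcard
  refine ⟨c, hc, eventually_atTop.2 ⟨x₀, fun x hx => ?_⟩⟩
  obtain ⟨h1, h2, h3, h4⟩ := hx₀ x hx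
  have e : {p ∈ Curves x | Basic S p} = Pool.Agent.H62.PR.CuH S x ∩ Pool.Agent.H62.PR.AllC x := by
    ext p
    constructor
    · rintro ⟨hp, hb⟩
      exact ⟨⟨(basic_iff S p).1 hb, hp.2⟩, hp⟩
    · rintro ⟨⟨hb, -⟩, hp⟩
      exact ⟨hp, (basic_iff S p).2 hb⟩
  refine ⟨h1, h2, ?_, ?_⟩
  · rw [e]
    exact h3
  · rw [e]
    refine h4.trans ?_
    have h5 : {p ∈ Pool.Agent.H62.PR.CuH S x ∩ Pool.Agent.H62.PR.AllC x |
        Pool.Agent.H62.PR.TwG S ε p} ⊆ {p ∈ Curves x | Basic S p ∧ Good S ε p} := by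
      rintro p ⟨⟨⟨hb, -⟩, hp⟩, ht⟩
      exact ⟨hp, (basic_iff S p).2 hb, good_of hS ((basic_iff S p).2 hb) ht⟩
    exact_mod_cast Set.ncard_le_ncard h5 (h1.subset fun q hq => hq.1)

end Pool.Agent.Results.MP_03e5d0_nt.TwistsOfAlmostAll
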